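import Pool.Agent.W_4481e3_q72.AllBases
import Pool.Agent.W_4481e3_q12.Final
import Pool.Agent.W_4481e3_rt.All

open MeasureTheory Set Pool.Agent.W_MP_4481e3_an

/-- For every integer `L ≥ 2` and every complex `α`, `0 < |α| < 1`, with negative fibre Lyapunov
exponents at `0` and `1`: for Lebesgue almost every `u ∈ [0,1)` the random Fatou set `F_u` of the
holomorphic Kan-type skew product is equal to the combined basin of `0, 1, ∞` at `u`. -/
theorem Pool.Agent.Results.MP_4481e3_an.AllBases.result (L : ℕ) (hL : 2 ≤ L) (α : ℂ)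
    (hα0 : 0 < ‖α‖) (hα1 : ‖α‖ < 1)
    (h0 : ∫ u in (0 : ℝ)..1, Real.log ‖1 + α * (Real.cos (2 * Real.pi * u) : ℂ)‖ < 0)
    (h1 : ∫ u in (0 : ℝ)..1, Real.log ‖1 - α * (Real.cos (2 * Real.pi * u) : ℂ)‖ < 0) :
    ∀ᵐ u ∂(volume.restrict (Ico (0 : ℝ) 1)), randomFatou α L u = combinedBasin α L u :=
  Pool.Agent.W_4481e3_q72.all_bases_of_noFam2
    (Pool.Agent.W_4481e3_q12.noFam2_of_sqs Pool.Agent.W_4481e3_rt.hsq) L hL α hα0 hα1 h0 h1
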